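import Pool.Agent.X92.BF8
import Pool.Agent.X92.BF10

/-!
Minkowski's question mark measure `μ` has minimal carrier capacity `1/4`, and the geometric means
`(a_1 ⋯ a_n)^(1/n)` of its recurrence coefficients converge to `1/4`; so the limit `G` of the
geometric means equals the minimal carrier capacity `c(μ)`.
-/

set_option autoImplicit false

namespace Pool.Agent.Results.MP_bff676_an.CarrierCapacity

open MeasureTheory Set Filter Topology Polynomial

/-- the Gauss map `x ↦ {1/x}` -/
noncomputable def gauss (x : ℝ) : ℝ := Int.fract x⁻¹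

/-- the partial quotient `a_{k+1}(x) = ⌊1 / gauss^k(x)⌋` of the continued fraction of
`x ∈ (0,1]` -/
noncomputable def digit (x : ℝ) (k : ℕ) : ℕ := ⌊(gauss^[k] x)⁻¹⌋₊

/-- the `(k+1)`-st term `(-1)^(k+2) / 2^(a_1+⋯+a_{k+1})` of the series of `q(x)`; it is there as
long as the continued fraction has not stopped, i.e. while `gauss^k(x) ≠ 0` -/
noncomputable def qterm (x : ℝ) (k : ℕ) : ℝ :=
  if gauss^[k] x = 0 then 0
  else (-1 : ℝ) ^ k / 2 ^ (∑ j ∈ Finset.range (k + 1), digit x j)

/-- Minkowski's question mark function on `[0,1]` -/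
noncomputable def questionMark (x : ℝ) : ℝ := 2 * ∑' k, qterm x k

/-- `μ` is the Borel probability measure on `[0,1]` with distribution function `questionMark` -/
structure IsMinkowski (μ : Measure ℝ) : Prop where
  prob : IsProbabilityMeasure μ
  supp : μ (Icc 0 1)ᶜ = 0
  cdf : ∀ x ∈ Icc (0 : ℝ) 1, μ (Icc 0 x) = ENNReal.ofReal (questionMark x)

/-- `p` is the sequence of orthonormal polynomials of `μ`, with positive leading coefficients -/
structure IsOrthonormal (μ : Measure ℝ) (p : ℕ → ℝ[X]) : Prop where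
  deg : ∀ n, (p n).natDegree = n
  pos : ∀ n, 0 < (p n).leadingCoeff
  orth : ∀ m n, ∫ x, (p m).eval x * (p n).eval x ∂μ = if m = n then 1 else 0

/-- the recurrence `x p_n = a_{n+1} p_{n+1} + b_n p_n + a_n p_{n-1}` for `n ≥ 0`, `p_{-1} = 0` -/
def IsRecurrence (p : ℕ → ℝ[X]) (a b : ℕ → ℝ) : Prop :=
  (X * p 0 = C (a 1) * p 1 + C (b 0) * p 0) ∧
  ∀ n, X * p (n + 1) = C (a (n + 2)) * p (n + 2) + C (b (n + 1)) * p (n + 1)
    + C (a (n + 1)) * p n

/-- `ν` is a probability measure carried by `K`, of finite logarithmic energy (so it has no atoms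
and `log |z - w|` is `ν × ν`-integrable) -/
structure FiniteEnergy (K : Set ℂ) (ν : Measure ℂ) : Prop where
  prob : IsProbabilityMeasure ν
  carried : ν Kᶜ = 0
  noAtom : ∀ z, ν {z} = 0
  integrable : Integrable (fun q : ℂ × ℂ => Real.log ‖q.1 - q.2‖) (ν.prod ν)

/-- the logarithmic energy `∫∫ log (1 / |z - w|) dν(z) dν(w)` -/
noncomputable def energy (ν : Measure ℂ) : ℝ := ∫ q : ℂ × ℂ, - Real.log ‖q.1 - q.2‖ ∂(ν.prod ν)

/-- logarithmic capacity of a compact set `K`: the supremum of `exp (- energy ν)` over the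
probability measures `ν` of finite energy carried by `K` (`0` if there is none) -/
noncomputable def cap (K : Set ℂ) : ENNReal :=
  ⨆ (ν : Measure ℂ) (_ : FiniteEnergy K ν), ENNReal.ofReal (Real.exp (- energy ν))

/-- capacity of a Borel set: the supremum of the capacities of its compact subsets -/
noncomputable def capBorel (B : Set ℂ) : ENNReal :=
  ⨆ (K : Set ℂ) (_ : IsCompact K) (_ : K ⊆ B), cap K

/-- the minimal carrier capacity `c(μ)` -/
noncomputable def carrierCap (μ : Measure ℝ) : ENNReal :=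
  ⨅ (B : Set ℂ) (_ : MeasurableSet B) (_ : μ {x : ℝ | (x : ℂ) ∉ B} = 0), capBorel B

lemma isMinkowski_iff (μ : Measure ℝ) : IsMinkowski μ ↔ X92.BF.IsMinkowski μ :=
  ⟨fun h => ⟨h.prob, h.supp, h.cdf⟩, fun h => ⟨h.prob, h.supp, h.cdf⟩⟩

lemma cap_eq (K : Set ℂ) : cap K = X92.BF.cap K := by
  have h : ∀ ν : Measure ℂ, FiniteEnergy K ν ↔ X92.BF.FiniteEnergy K ν := fun ν =>
    ⟨fun h => ⟨h.prob, h.carried, h.noAtom, h.integrable⟩,
      fun h => ⟨h.prob, h.carried, h.noAtom, h.integrable⟩⟩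
  unfold cap X92.BF.cap
  apply iSup_congr
  intro ν
  exact iSup_congr_Prop (h ν) fun _ => rfl

lemma carrierCap_eq (μ : Measure ℝ) : carrierCap μ = X92.BF.carrierCap μ := by
  unfold carrierCap X92.BF.carrierCap capBorel X92.BF.capBorel
  simp_rw [cap_eq]

/-- Minkowski's question mark measure exists; its minimal carrier capacity is `1/4`; the geometric
means of its recurrence coefficients tend to `1/4`; every limit of these geometric means equals the
minimal carrier capacity. -/
theorem result :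
    (∃ μ : Measure ℝ, IsMinkowski μ) ∧
    ∀ μ : Measure ℝ, IsMinkowski μ →
      carrierCap μ = ENNReal.ofReal (1 / 4) ∧
      ∀ (p : ℕ → ℝ[X]) (a b : ℕ → ℝ), IsOrthonormal μ p → IsRecurrence p a b →
        Tendsto (fun n : ℕ => (∏ k ∈ Finset.Icc 1 n, a k) ^ ((1 : ℝ) / n)) atTop (𝓝 (1 / 4)) ∧
        ∀ G : ℝ, Tendsto (fun n : ℕ => (∏ k ∈ Finset.Icc 1 n, a k) ^ ((1 : ℝ) / n)) atTop (𝓝 G) →
          ENNReal.ofReal G = carrierCap μ := by
  refine ⟨?_, ?_⟩
  · obtain ⟨μ, hμ⟩ := X92.BF.exists_minkowski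
    exact ⟨μ, (isMinkowski_iff μ).2 hμ⟩
  · intro μ hμ
    have h := (isMinkowski_iff μ).1 hμ
    have hc : carrierCap μ = ENNReal.ofReal (1 / 4) := by rw [carrierCap_eq]; exact h.carrier_eq
    refine ⟨hc, fun p a b hp hr => ?_⟩
    have hl := h.geom_limit (p := p) (a := a) (b := b) ⟨hp.deg, hp.pos, hp.orth⟩ hr
    refine ⟨hl, fun G hG => ?_⟩
    rw [tendsto_nhds_unique hG hl, hc]

end Pool.Agent.Results.MP_bff676_an.CarrierCapacity
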